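import Pool.Agent.Helper37.TW3.Defs2
import Pool.Agent.Helper5.TW.G3t

/-!
# Project TW3, block W3: the weights, with any number of rational roots
-/

set_option autoImplicit false

namespace Pool.Agent.TW3

open Polynomial NumberField IsDedekindDomain Pool.Agent.HG
open Pool.Agent.HG.Ctx
open Pool.Agent.Helper99.HG (CD pf Nm BT TA TB Sys)
open Pool.Agent.TW (WJt TBt)
open scoped Pointwise IntermediateField

/-! ## Other options -/

section gen

variable {k : ℕ} {G : Type}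

theorem wjt_mono5 (D : CD k G) (V' : D.P → Finset D.O) (hV : ∀ p, V' p ⊆ D.V p)
    (J : Finset (Fin k)) (t : Fin k → D.ι → G) (p : D.P) :
    WJt (resV D V') J t p ≤ WJt D J t p := by
  classical
  unfold WJt
  refine Finset.sum_le_sum_of_subset_of_nonneg ?_ fun _ _ _ => by positivity
  intro (o : D.O) ho
  have ho' := Finset.mem_filter.1 ho
  exact Finset.mem_filter.2 ⟨hV p ho'.1, ho'.2⟩

theorem tbt_mono5 (D : CD k G) (V' : D.P → Finset D.O) (hV : ∀ p, V' p ⊆ D.V p)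
    {J : Finset (Fin k)} (h : TBt D J) : TBt (resV D V') J := by
  obtain ⟨hne, δ, C, hδ, h⟩ := h
  refine ⟨hne, δ, C, hδ, fun y x hy hyx t S hS => ?_⟩
  refine le_trans (Finset.sum_le_sum fun p _ => ?_) (h y x hy hyx t S hS)
  exact div_le_div_of_nonneg_right (wjt_mono5 D V' hV J (t p) p) (Nat.cast_nonneg _)

theorem ta_mono5 (D : CD k G) (V' : D.P → Finset D.O) (hV : ∀ p, V' p ⊆ D.V p)
    {J : Finset (Fin k)} (h : TA D J) : TA (resV D V') J := by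
  classical
  obtain ⟨δ, C, hδ, h⟩ := h
  refine ⟨δ, C, hδ, fun y x hy hyx (S : Finset D.P) hS => ?_⟩
  have h1 := h y x hy hyx (S.filter fun p => ∀ o ∈ D.V p, D.cmp o ∉ J) fun p => by
    rw [Finset.mem_filter]
    constructor
    · rintro ⟨h1, h2⟩
      have h3 := (hS p).1 h1
      exact ⟨h3.1, h3.2.1, h3.2.2.1, h2⟩
    · rintro ⟨h1, h2, h3, h4⟩
      exact ⟨(hS p).2 ⟨h1, h2, h3, fun o ho => h4 o (hV p ho)⟩, h4⟩
  refine h1.trans (Finset.sum_le_sum_of_subset_of_nonneg (Finset.filter_subset _ _) ?_)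
  intro p _ _
  positivity

theorem special_mono5 (D : CD k G) (V' : D.P → Finset D.O) (hV : ∀ p, V' p ⊆ D.V p)
    {j : Fin k} (h : Special D j) : Special (resV D V') j := by
  refine ⟨fun q o ho o' ho' h1 h2 p i => ?_, fun q o ho h1 => ?_⟩
  · exact h.chi q o (hV q ho) o' (hV q ho') h1 h2 p i
  · exact h.emp q o (hV q ho) h1

/-- the weight is bounded by the number of consistent options -/
theorem wjt_cardc5 {β : Type} (D : CD k G) (J : Finset (Fin k)) (t : Fin k → D.ι → G)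
    (p : D.P) (w : ℝ) (hw : 0 ≤ w) (A : Finset β) (φ : D.O → β)
    (h1 : ∀ o ∈ D.V p, D.cmp o ∈ J → (∀ j, j ∉ J → ∀ i ∈ D.I p o j, t j i = D.g p o i) →
      φ o ∈ A ∧ (1 / 2 : ℝ) ^ (∑ j ∈ J, (D.I p o j).card) = w)
    (h2 : ∀ o ∈ D.V p, ∀ o' ∈ D.V p, D.cmp o ∈ J → D.cmp o' ∈ J →
      (∀ j, j ∉ J → ∀ i ∈ D.I p o j, t j i = D.g p o i) →
      (∀ j, j ∉ J → ∀ i ∈ D.I p o' j, t j i = D.g p o' i) → φ o = φ o' → o = o') :
    WJt D J t p ≤ A.card * w := by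
  classical
  unfold WJt
  have h3 : ∀ o ∈ (D.V p).filter
      (fun o => D.cmp o ∈ J ∧ ∀ j, j ∉ J → ∀ i ∈ D.I p o j, t j i = D.g p o i),
      (1 / 2 : ℝ) ^ (∑ j ∈ J, (D.I p o j).card) = w := by
    intro o ho
    rw [Finset.mem_filter] at ho
    exact (h1 o ho.1 ho.2.1 ho.2.2).2
  have h4 : ((D.V p).filter
      (fun o => D.cmp o ∈ J ∧ ∀ j, j ∉ J → ∀ i ∈ D.I p o j, t j i = D.g p o i)).card ≤ A.card := by
    refine Finset.card_le_card_of_injOn φ ?_ ?_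
    · intro o ho
      have ho' := Finset.mem_coe.1 ho
      rw [Finset.mem_filter] at ho'
      exact Finset.mem_coe.2 (h1 o ho'.1 ho'.2.1 ho'.2.2).1
    · intro o ho o' ho' he
      have a := Finset.mem_coe.1 ho
      have a' := Finset.mem_coe.1 ho'
      rw [Finset.mem_filter] at a a'
      exact h2 o a.1 o' a'.1 a.2.1 a'.2.1 a.2.2 a'.2.2 he
  calc _ ≤ ∑ o ∈ (D.V p).filter
        (fun o => D.cmp o ∈ J ∧ ∀ j, j ∉ J → ∀ i ∈ D.I p o j, t j i = D.g p o i), w := by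
        refine le_of_eq (Finset.sum_congr ?_ ?_)
        · ext o
          simp only [Finset.mem_filter]
        · intro o ho
          exact h3 o ho
    _ ≤ A.card * w := by
        rw [Finset.sum_const, nsmul_eq_mul]
        refine mul_le_mul_of_nonneg_right ?_ hw
        exact_mod_cast h4

end gen

section

variable {k L : Type} [Field k] [NumberField k] [Field L] [NumberField L] [Algebra k L]
  [IsGalois k L] {f : k[X]} (X : Ctx k L f)

/-- a condition at an orbit of odd length determines the sign -/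
theorem sign_eq5 (h4 : 4 ≤ f.natDegree) (hm : 0 < X.m) {ι : Type}
    (SG : Pr k → ι → ℕ → L → L → ℤˣ) (hh : L → L → L) {v : Pr k} {b ρ : L}
    (hfix : X.F v b = b) (hρ : ρ ∈ X.R v) (hne : X.cmp hm b ≠ X.cmp hm ρ)
    (hodd : Odd (X.len v ρ)) (i : ι) (u u' : ℤˣ)
    (h : ggM X hm SG hh v ⟨(b, u), i⟩ ρ = ggM X hm SG hh v ⟨(b, u'), i⟩ ρ) : u = u' := by
  classical
  have hρb : ρ ∈ (X.R v).erase b := by
    rw [Finset.mem_erase]
    refine ⟨?_, hρ⟩
    rintro rfl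
    exact hne rfl
  have hle : padicValNat 2 (X.len v (X.st v b)) ≤ padicValNat 2 (X.len v ρ) := by
    refine X.st_le h4 hfix ?_
    convert hρb
  have hq := Pool.Agent.TW.odd_pow5 hodd (X.len_pos v (X.st v b)) hle
  unfold ggM at h
  dsimp only at h
  rw [if_neg hne, mul_one, mul_one] at h
  split_ifs at h with h5
  · exact h
  · have e5 := mul_left_cancel h
    obtain ⟨n, hn⟩ := hq
    rw [hn] at e5
    rw [pow_succ, pow_mul, Int.units_sq, one_pow, one_mul, pow_succ, pow_mul, Int.units_sq,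
      one_pow, one_mul] at e5
    exact e5

/-- outside the component of the option the prescription is its first factor -/
theorem ggM_eq5 (hm : 0 < X.m) {ι : Type} (SG : Pr k → ι → ℕ → L → L → ℤˣ) (hh : L → L → L)
    (v : Pr k) (o : Σ _ : L × ℤˣ, ι) (ρ : L) (hne : X.cmp hm o.1.1 ≠ X.cmp hm ρ) :
    ggM X hm SG hh v o ρ = gfac X SG hh v o ρ := by
  unfold ggM gfac
  rw [if_neg hne, mul_one]

/-- a root outside `J` which is fixed by an odd power of the Frobenius element -/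
theorem odd_rep5 (hm : 0 < X.m) (J : Finset (Fin X.m)) (v : Pr k) {θ : L} (hθ : θ ∈ X.Ω)
    (hθJ : X.cmp hm θ ∉ J) {n : ℕ} (hn : Odd n) (h : (X.F v ^ n) θ = θ) :
    ∃ ρ ∈ X.R v, X.cmp hm ρ ∉ J ∧ Odd (X.len v ρ) := by
  classical
  rw [Ctx.pow_apply'] at h
  have hper : Function.IsPeriodicPt (X.F v) n θ := h
  have hn0 : 0 < n := hn.pos
  have hdvd : X.len v θ ∣ n := hper.minimalPeriod_dvd
  obtain ⟨i, hi⟩ := X.rep_eq v θ
  have hlen : X.len v (X.rep v θ) = X.len v θ := by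
    unfold Ctx.len
    rw [hi]
    exact Function.minimalPeriod_apply_iterate ⟨n, hn0, hper⟩ i
  refine ⟨X.rep v θ, ?_, ?_, ?_⟩
  · unfold Ctx.R
    exact Finset.mem_image_of_mem _ hθ
  · rw [X.cmp_rep5]
    exact hθJ
  · rw [hlen]
    exact Odd.of_dvd_nat hn hdvd

/-- the options at `v` -/
theorem mem_V5 {ι : Type} {Vι : Pr k → L → Finset ι} {v : Pr k} {o : Σ _ : L × ℤˣ, ι}
    (h : open scoped Classical in
      o ∈ (X.Fx v ×ˢ (Finset.univ : Finset ℤˣ)).sigma fun o => Vι v o.1) :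
    o.1.1 ∈ X.Ω ∧ X.F v o.1.1 = o.1.1 ∧ o.2 ∈ Vι v o.1.1 := by
  classical
  rw [Finset.mem_sigma, Finset.mem_product] at h
  obtain ⟨⟨h1, -⟩, h2⟩ := h
  unfold Ctx.Fx at h1
  rw [Finset.mem_filter] at h1
  exact ⟨h1.1, h1.2, h2⟩

open scoped Classical in
/-- the options which satisfy the relations -/
noncomputable def VW5 (ι : Type) (Vι : Pr k → L → Finset ι)
    (SG : Pr k → ι → ℕ → L → L → ℤˣ) (hh : L → L → L) (v : Pr k) : Finset (Σ _ : L × ℤˣ, ι) :=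
  Finset.filter (fun o : Σ _ : L × ℤˣ, ι => RelP X SG hh v o)
    ((X.Fx v ×ˢ (Finset.univ : Finset ℤˣ)).sigma fun o => Vι v o.1)

theorem cdW_eq5 (hm : 0 < X.m) (hfin : {v : Pr k | ¬ Gd X.M v}.Finite) (ι : Type)
    (Vι : Pr k → L → Finset ι) (SG : Pr k → ι → ℕ → L → L → ℤˣ) (hh : L → L → L) :
    cdW X hm hfin ι Vι SG hh =
      resV (X.cdM hm hfin ι Vι (ggM X hm SG hh)) (VW5 X ι Vι SG hh) := rfl

theorem VW_sub5 (hm : 0 < X.m) (hfin : {v : Pr k | ¬ Gd X.M v}.Finite) (ι : Type)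
    (Vι : Pr k → L → Finset ι) (SG : Pr k → ι → ℕ → L → L → ℤˣ) (hh : L → L → L) (v : Pr k) :
    VW5 X ι Vι SG hh v ⊆ (X.cdM hm hfin ι Vι (ggM X hm SG hh)).V v := by
  classical
  unfold VW5
  exact Finset.filter_subset _ _

theorem mem_VW5 {ι : Type} {Vι : Pr k → L → Finset ι} {SG : Pr k → ι → ℕ → L → L → ℤˣ}
    {hh : L → L → L} {v : Pr k} {o : Σ _ : L × ℤˣ, ι} (h : o ∈ VW5 X ι Vι SG hh v) :
    o.1.1 ∈ X.Ω ∧ X.F v o.1.1 = o.1.1 ∧ o.2 ∈ Vι v o.1.1 ∧ RelP X SG hh v o := by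
  classical
  unfold VW5 at h
  rw [Finset.mem_filter] at h
  obtain ⟨h1, h2, h3⟩ := mem_V5 X h.1
  exact ⟨h1, h2, h3, h.2⟩

/-- the condition of `WJt` at one orbit -/
theorem at_orbit5 (hm : 0 < X.m) (hfin : {v : Pr k | ¬ Gd X.M v}.Finite) (ι : Type)
    (Vι : Pr k → L → Finset ι) (g : Pr k → (Σ _ : L × ℤˣ, ι) → L → ℤˣ)
    (V' : Pr k → Finset (Σ _ : L × ℤˣ, ι)) (J : Finset (Fin X.m)) (v : Pr k)
    (t : Fin X.m → L → ℤˣ) (o : Σ _ : L × ℤˣ, ι)
    (h : ∀ j, j ∉ J → ∀ i ∈ (resV (X.cdM hm hfin ι Vι g) V').I v o j,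
      t j i = (resV (X.cdM hm hfin ι Vι g) V').g v o i)
    {ρ : L} (hρ : ρ ∈ X.R v) (hρJ : X.cmp hm ρ ∉ J) (hoJ : X.cmp hm o.1.1 ∈ J) :
    t (X.cmp hm ρ) ρ = g v o ρ := by
  classical
  refine h _ hρJ ρ ?_
  change ρ ∈ ((X.R v).filter fun ρ' => X.cmp hm ρ' = X.cmp hm ρ).erase o.1.1
  rw [Finset.mem_erase, Finset.mem_filter]
  refine ⟨?_, hρ, rfl⟩
  rintro rfl
  exact hρJ hoJ

/-- the components of two rational roots: the weights -/
theorem wjt_pair5 (h4 : 4 ≤ f.natDegree) (hm : 0 < X.m)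
    (hfin : {v : Pr k | ¬ Gd X.M v}.Finite) (ι : Type)
    (Vι : Pr k → L → Finset ι) (SG : Pr k → ι → ℕ → L → L → ℤˣ) (hh : L → L → L)
    {a b : k} (ha : eval a f = 0) (hb : eval b f = 0) (hab : a ≠ b) (v : Pr k)
    (hodd : ∃ θ ∈ X.Ω, θ ≠ algebraMap k L a ∧ θ ≠ algebraMap k L b ∧
        ∃ n : ℕ, Odd n ∧ (X.F v ^ n) θ = θ)
    (t : Fin X.m → L → ℤˣ) (c : ℕ) (hc : ∀ t, (Vι v t).card ≤ c) :
    WJt (resV (X.cdM hm hfin ι Vι (ggM X hm SG hh)) (VW5 X ι Vι SG hh)) {X.cmp hm (algebraMap k L a), X.cmp hm (algebraMap k L b)}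
      t v ≤ c ∧
    ((∃ ρ ∈ X.Ω, ∃ ρ' ∈ X.Ω, X.F v ρ = ρ ∧ X.F v ρ' = ρ' ∧ ρ ≠ ρ' ∧
          ρ ≠ algebraMap k L a ∧ ρ ≠ algebraMap k L b ∧ ρ' ≠ algebraMap k L a ∧
          ρ' ≠ algebraMap k L b ∧ ∀ i ∈ Vι v (algebraMap k L a), ∀ i' ∈ Vι v (algebraMap k L b),
            SG v i 1 ρ ρ' ≠ SG v i' 1 ρ ρ') →
      WJt (resV (X.cdM hm hfin ι Vι (ggM X hm SG hh)) (VW5 X ι Vι SG hh)) {X.cmp hm (algebraMap k L a), X.cmp hm (algebraMap k L b)}
        t v ≤ 1 / 2 * c) := by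
  classical
  set A := algebraMap k L a with hA
  set B := algebraMap k L b with hB
  have hAm : A ∈ X.Ω := X.rat_mem22 ha
  have hBm : B ∈ X.Ω := X.rat_mem22 hb
  have hAB : A ≠ B := fun h => hab ((algebraMap k L).injective h)
  have hAf : X.F v A = A := (X.F v).commutes a
  have hBf : X.F v B = B := (X.F v).commutes b
  set J : Finset (Fin X.m) := {X.cmp hm A, X.cmp hm B} with hJ
  have hJm : ∀ j, j ∈ J ↔ j = X.cmp hm A ∨ j = X.cmp hm B := fun j => by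
    rw [hJ, Finset.mem_insert, Finset.mem_singleton]
  have hcA : ∀ θ ∈ X.Ω, X.cmp hm θ = X.cmp hm A → θ = A := fun θ hθ h =>
    X.eq_rat_of_cmp22 hm ha hθ h
  have hcB : ∀ θ ∈ X.Ω, X.cmp hm θ = X.cmp hm B → θ = B := fun θ hθ h =>
    X.eq_rat_of_cmp22 hm hb hθ h
  have hJr : ∀ θ ∈ X.Ω, X.cmp hm θ ∈ J → θ = A ∨ θ = B := fun θ hθ h => by
    rcases (hJm _).1 h with h | h
    · exact Or.inl (hcA θ hθ h)
    · exact Or.inr (hcB θ hθ h)
  have hAJ : X.cmp hm A ∈ J := (hJm _).2 (Or.inl rfl)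
  have hBJ : X.cmp hm B ∈ J := (hJm _).2 (Or.inr rfl)
  -- the numbers of roots and orbits
  have hF2 : (X.FJ5 hm J v).card ≤ 2 := by
    have h1 : X.FJ5 hm J v ⊆ {A, B} := fun θ hθ => by
      rw [Ctx.mem_FJ5] at hθ
      rw [Finset.mem_insert, Finset.mem_singleton]
      exact hJr θ hθ.1.1 hθ.2
    exact (Finset.card_le_card h1).trans Finset.card_le_two
  have hR2 : 2 ≤ (X.RJ5 hm J v).card := by
    have h1 : ({A, B} : Finset L) ⊆ X.RJ5 hm J v := fun θ hθ => by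
      rw [Finset.mem_insert, Finset.mem_singleton] at hθ
      rw [Ctx.mem_RJ5]
      rcases hθ with rfl | rfl
      · exact ⟨X.fix_mem_R5 hAm hAf, hAJ⟩
      · exact ⟨X.fix_mem_R5 hBm hBf, hBJ⟩
    have h2 := Finset.card_le_card h1
    rwa [Finset.card_pair hAB] at h2
  have hp := Pool.Agent.TW.pow_bd5 hR2
  -- the odd orbit
  obtain ⟨θ, hθ, hθA, hθB, n, hn, hnθ⟩ := hodd
  have hout : ∀ θ ∈ X.Ω, θ ≠ A → θ ≠ B → X.cmp hm θ ∉ J := fun θ hθ h1 h2 h3 => by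
    rcases hJr θ hθ h3 with h | h
    · exact h1 h
    · exact h2 h
  obtain ⟨ρ₀, hρ₀, hρ₀J, hρ₀o⟩ := odd_rep5 X hm J v hθ (hout θ hθ hθA hθB) hn hnθ
  constructor
  · refine (wjt_mono5 (X.cdM hm hfin ι Vι (ggM X hm SG hh)) (VW5 X ι Vι SG hh)
      (VW_sub5 X hm hfin ι Vι SG hh) J t v).trans ?_
    have h1 := Pool.Agent.TW.wjt_forced_le5 X h4 hm hfin ι Vι SG hh J v t hρ₀ hρ₀J hρ₀o c hc
      (w := 1) ?_
    · linarith
    · have h2 : (0 : ℝ) ≤ 2 * ((X.FJ5 hm J v).card : ℝ) :=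
        mul_nonneg (by norm_num) (Nat.cast_nonneg _)
      refine (mul_le_mul_of_nonneg_left hp h2).trans ?_
      have h3 : ((X.FJ5 hm J v).card : ℝ) ≤ 2 := by exact_mod_cast hF2
      linarith
  · rintro ⟨ρ, hρ, ρ', hρ', hρf, hρf', hρρ, hρA, hρB, hρA', hρB', hsg⟩
    have hρJ := hout ρ hρ hρA hρB
    have hρJ' := hout ρ' hρ' hρA' hρB'
    -- the consistent options
    obtain ⟨Cn, hCn⟩ : ∃ Cn : (Σ _ : L × ℤˣ, ι) → Prop, ∀ o, Cn o ↔
        (∀ j, j ∉ J → ∀ i ∈ (resV (X.cdM hm hfin ι Vι (ggM X hm SG hh))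
            (VW5 X ι Vι SG hh)).I v o j,
          t j i = (resV (X.cdM hm hfin ι Vι (ggM X hm SG hh)) (VW5 X ι Vι SG hh)).g v o i) :=
      ⟨_, fun o => Iff.rfl⟩
    have key3 : ∀ o ∈ VW5 X ι Vι SG hh v, X.cmp hm o.1.1 ∈ J → Cn o →
        t (X.cmp hm ρ) ρ * t (X.cmp hm ρ') ρ' = X.chE v 1 (hh ρ ρ') * SG v o.2 1 ρ ρ' := by
      intro o ho hoJ hc
      obtain ⟨h1, h2, h3, h5⟩ := mem_VW5 X ho
      have h6 := at_orbit5 X hm hfin ι Vι _ _ J v t o ((hCn o).1 hc) (X.fix_mem_R5 hρ hρf) hρJ hoJ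
      have h7 := at_orbit5 X hm hfin ι Vι _ _ J v t o ((hCn o).1 hc) (X.fix_mem_R5 hρ' hρf')
        hρJ' hoJ
      rw [h6, h7, ggM_eq5 X hm SG hh v o ρ fun h => hρJ (h ▸ hoJ),
        ggM_eq5 X hm SG hh v o ρ' fun h => hρJ' (h ▸ hoJ)]
      refine h5 ρ hρ ρ' hρ' hρf hρf' hρρ ?_ ?_
      · rintro rfl
        exact hρJ hoJ
      · rintro rfl
        exact hρJ' hoJ
    -- all consistent options have the same root
    have key4 : ∃ C : L, (C = A ∨ C = B) ∧ ∀ o ∈ VW5 X ι Vι SG hh v, X.cmp hm o.1.1 ∈ J →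
        Cn o → o.1.1 = C := by
      by_cases hex : ∃ o ∈ VW5 X ι Vι SG hh v, X.cmp hm o.1.1 ∈ J ∧ Cn o ∧ o.1.1 = A
      · obtain ⟨o, ho, hoJ, hoc, hoA⟩ := hex
        refine ⟨A, Or.inl rfl, fun o' ho' hoJ' hoc' => ?_⟩
        obtain ⟨h1, -, h2, -⟩ := mem_VW5 X ho
        obtain ⟨h1', -, h2', -⟩ := mem_VW5 X ho'
        rcases hJr _ h1' hoJ' with h | h
        · exact h
        · exfalso
          have e1 := key3 o ho hoJ hoc
          have e2 := key3 o' ho' hoJ' hoc'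
          rw [hoA] at h2
          rw [h] at h2'
          exact hsg _ h2 _ h2' (mul_left_cancel (e1.symm.trans e2))
      · refine ⟨B, Or.inr rfl, fun o' ho' hoJ' hoc' => ?_⟩
        obtain ⟨h1', -, h2', -⟩ := mem_VW5 X ho'
        rcases hJr _ h1' hoJ' with h | h
        · exact absurd ⟨o', ho', hoJ', hoc', h⟩ hex
        · exact h
    obtain ⟨C, hC, hall⟩ := key4
    have h := wjt_cardc5 (resV (X.cdM hm hfin ι Vι (ggM X hm SG hh)) (VW5 X ι Vι SG hh)) J t v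
      (2 * (1 / 2 : ℝ) ^ (X.RJ5 hm J v).card)
      (mul_nonneg (by norm_num) (pow_nonneg (by norm_num) _)) (Vι v C)
      (fun o : (Σ _ : L × ℤˣ, ι) => o.2) ?_ ?_
    · refine h.trans ?_
      have h5 : ((Vι v C).card : ℝ) ≤ c := by exact_mod_cast hc C
      have h6 : (0 : ℝ) ≤ (1 / 2 : ℝ) ^ (X.RJ5 hm J v).card := by positivity
      have h7 : 2 * (1 / 2 : ℝ) ^ (X.RJ5 hm J v).card ≤ 1 / 2 := by linarith
      calc ((Vι v C).card : ℝ) * (2 * (1 / 2 : ℝ) ^ (X.RJ5 hm J v).card) ≤ c * (1 / 2) :=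
            mul_le_mul h5 h7 (by positivity) (Nat.cast_nonneg c)
        _ = 1 / 2 * c := mul_comm _ _
    · intro (o : (Σ _ : L × ℤˣ, ι)) (ho : o ∈ VW5 X ι Vι SG hh v) (hoJ : X.cmp hm o.1.1 ∈ J) hoc
      have h5 : o.1.1 = C := hall o ho hoJ ((hCn o).2 hoc)
      obtain ⟨h1, h2, h3, -⟩ := mem_VW5 X ho
      refine ⟨?_, ?_⟩
      · rw [← h5]
        exact h3
      · refine Pool.Agent.TW.expo5 X hm J v ?_
        rw [Ctx.mem_FJ5]
        exact ⟨⟨h1, h2⟩, hoJ⟩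
    · intro (o : (Σ _ : L × ℤˣ, ι)) (ho : o ∈ VW5 X ι Vι SG hh v) (o' : (Σ _ : L × ℤˣ, ι))
        (ho' : o' ∈ VW5 X ι Vι SG hh v) (h3 : X.cmp hm o.1.1 ∈ J) (h3' : X.cmp hm o'.1.1 ∈ J)
        hac hac' he
      have e1 : o.1.1 = C := hall o ho h3 ((hCn o).2 hac)
      have e1' : o'.1.1 = C := hall o' ho' h3' ((hCn o').2 hac')
      have hfix := (mem_VW5 X ho).2.1
      have ho3 := at_orbit5 X hm hfin ι Vι _ _ J v t o hac hρ₀ hρ₀J h3
      have ho3' := at_orbit5 X hm hfin ι Vι _ _ J v t o' hac' hρ₀ hρ₀J h3'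
      clear hac hac' ho ho' h3' key3 hall hCn Cn
      obtain ⟨⟨b₁, u⟩, i⟩ := o
      obtain ⟨⟨b₂, u'⟩, i'⟩ := o'
      have e2 : i = i' := he
      have e3 : b₁ = b₂ := e1.trans e1'.symm
      subst e2 e3
      have e4 : u = u' := sign_eq5 X h4 hm SG hh hfix hρ₀ (fun h => hρ₀J (h ▸ h3)) hρ₀o i u u'
        (ho3.symm.trans ho3')
      rw [e4]

/-- the weights are less than `1` in the mean, from the bounds of the weights -/
theorem tbt_gen5 (hMe : StmtMert) (K : ℕ) {δs Cs : ℝ} {Qs : Set (Pr k)}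
    {B₀ : ℕ → Finset (Pr k)} (hB₀ : ∀ x v, v ∈ B₀ x ↔ nm v ≤ x) (hδs : 0 < δs)
    (hCs : ∀ x : ℕ, 2 ≤ x → |(open scoped Classical in
      ∑ v ∈ (B₀ x).filter (· ∈ Qs), (1 : ℝ) / nm v) - δs * Real.log (Real.log x)| ≤ Cs)
    (hm : 0 < X.m) (hfin : {v : Pr k | ¬ Gd X.M v}.Finite) (ι : Type)
    (Vι : Pr k → L → Finset ι) (g : Pr k → (Σ _ : L × ℤˣ, ι) → L → ℤˣ)
    (V' : Pr k → Finset (Σ _ : L × ℤˣ, ι)) (Q : Set (Pr k))
    {B : ℕ → Finset (Pr k)} (hB : ∀ x v, v ∈ B x ↔ nm v ≤ x) {δ C : ℝ}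
    (hδ : δ ≤ 1 / 8 * δs / (K + 1 / 4))
    (hC : ∀ x : ℕ, 2 ≤ x → |(open scoped Classical in
      ∑ v ∈ (B x).filter (· ∈ Q), (1 : ℝ) / nm v) - δ * Real.log (Real.log x)| ≤ C)
    (J : Finset (Fin X.m)) (hne : J.Nonempty)
    (hw : ∀ v, Gd X.M v → ∀ t : Fin X.m → L → ℤˣ,
      WJt (resV (X.cdM hm hfin ι Vι g) V') J t v ≤ K ∧
      (v ∉ Q → WJt (resV (X.cdM hm hfin ι Vι g) V') J t v ≤ 1) ∧
      (v ∉ Q → v ∈ Qs → WJt (resV (X.cdM hm hfin ι Vι g) V') J t v ≤ 3 / 4)) :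
    TBt (resV (X.cdM hm hfin ι Vι g) V') J := by
  classical
  obtain ⟨_, C₂, h2⟩ := hMe k B hB
  have hKpos : (0 : ℝ) < K + 1 / 4 := by positivity
  refine ⟨hne, 1 / 8 * δs, 2 * C₂ + 1 / 4 * (2 * Cs + ∑ v ∈ hfin.toFinset, (1 : ℝ) / nm v) +
    (K + 1 / 4) * (2 * C), by positivity,
    fun y x hy hyx (t : Pr k → Fin X.m → L → ℤˣ) (S : Finset (Pr k)) hS => ?_⟩
  have hS' : ∀ v, v ∈ S ↔ v ∉ hfin.toFinset ∧ y < nm v ∧ nm v ≤ x := hS
  have hLL : Real.log (Real.log y) ≤ Real.log (Real.log x) :=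
    Real.log_le_log (Real.log_pos (by exact_mod_cast (by omega : 1 < y)))
      (Real.log_le_log (by exact_mod_cast (by omega : 0 < y)) (by exact_mod_cast hyx))
  have e1 := upper5 hB h2 hy hyx S fun v hv => ((hS' v).1 hv).2
  have e2 := diff5 hB₀ Qs (by convert hCs) hfin.toFinset hy hyx (S.filter (· ∈ Qs))
    fun v hvQ h1 h2 h3 => by
      rw [Finset.mem_filter, hS']
      exact ⟨⟨h3, h1, h2⟩, hvQ⟩
  have e2' := upperQ5 hB Q (by convert hC) hy hyx (S.filter (· ∈ Q))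
    fun v hv => by
      rw [Finset.mem_filter, hS'] at hv
      exact ⟨hv.2, hv.1.2⟩
  obtain ⟨W, hW⟩ : ∃ W : Pr k → ℝ, ∀ v, W v = WJt (resV (X.cdM hm hfin ι Vι g) V') J (t v) v :=
    ⟨_, fun _ => rfl⟩
  have e3 : ∀ v ∈ S, W v / nm v ≤
      1 / nm v - 1 / 4 * (if v ∈ Qs then (1 : ℝ) / nm v else 0) +
        (K + 1 / 4) * (if v ∈ Q then (1 : ℝ) / nm v else 0) := by
    intro v hv
    have hpos : (0 : ℝ) < nm v := by
      have := (card_quot5 v).2
      exact_mod_cast (by omega : 0 < nm v)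
    have hgd : Gd X.M v := by
      by_contra h8
      exact ((hS' v).1 hv).1 (hfin.mem_toFinset.2 h8)
    obtain ⟨k1, k2, k3⟩ := hw v hgd (t v)
    rw [← hW v] at k1 k2 k3
    have key : W v ≤ 1 - 1 / 4 * (if v ∈ Qs then (1 : ℝ) else 0) +
          (K + 1 / 4) * (if v ∈ Q then (1 : ℝ) else 0) := by
      by_cases hvQ : v ∈ Q
      · rw [if_pos hvQ]
        have h8 : (if v ∈ Qs then (1 : ℝ) else 0) ≤ 1 := by split_ifs <;> norm_num
        linarith
      · rw [if_neg hvQ, mul_zero, add_zero]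
        split_ifs with h
        · have := k3 hvQ h
          linarith
        · linarith [k2 hvQ]
    have h9 := div_le_div_of_nonneg_right key hpos.le
    refine h9.trans (le_of_eq ?_)
    split_ifs <;> ring
  have e4 : ∑ v ∈ S, W v / nm v ≤
      ∑ v ∈ S, (1 : ℝ) / nm v - 1 / 4 * ∑ v ∈ S.filter (· ∈ Qs), (1 : ℝ) / nm v +
        (K + 1 / 4) * ∑ v ∈ S.filter (· ∈ Q), (1 : ℝ) / nm v := by
    refine (Finset.sum_le_sum e3).trans (le_of_eq ?_)
    rw [Finset.sum_add_distrib, Finset.sum_sub_distrib, ← Finset.mul_sum, ← Finset.mul_sum,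
      Finset.sum_filter, Finset.sum_filter]
  have e5 : (K + 1 / 4 : ℝ) * (δ * (Real.log (Real.log x) - Real.log (Real.log y))) ≤
      1 / 8 * δs * (Real.log (Real.log x) - Real.log (Real.log y)) := by
    rw [← mul_assoc]
    refine mul_le_mul_of_nonneg_right ?_ (by linarith)
    rw [le_div_iff₀ hKpos] at hδ
    linarith
  have e6 : (K + 1 / 4 : ℝ) * ∑ v ∈ S.filter (· ∈ Q), (1 : ℝ) / nm v ≤
      (K + 1 / 4) * (δ * (Real.log (Real.log x) - Real.log (Real.log y)) + 2 * C) :=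
    mul_le_mul_of_nonneg_left e2' hKpos.le
  have e7 : ∑ v ∈ S, WJt (resV (X.cdM hm hfin ι Vι g) V') J (t v) v / nm v =
      ∑ v ∈ S, W v / nm v := Finset.sum_congr rfl fun v _ => by rw [hW v]
  change ∑ v ∈ S, WJt (resV (X.cdM hm hfin ι Vι g) V') J (t v) v / nm v ≤ _
  rw [e7]
  rw [mul_add] at e6
  linarith

/-- a set with the component of a rational root and another one: three roots, or two rational
roots -/
theorem three_or5 (hm : 0 < X.m) {a : k} (ha : eval a f = 0) (J : Finset (Fin X.m))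
    (hJ : X.cmp hm (algebraMap k L a) ∈ J) (hne : J ≠ {X.cmp hm (algebraMap k L a)}) :
    3 ≤ (X.ΩJ5 hm J).card ∨ ∃ b : k, eval b f = 0 ∧ a ≠ b ∧
      J = {X.cmp hm (algebraMap k L a), X.cmp hm (algebraMap k L b)} := by
  classical
  obtain ⟨j, hj, hj0⟩ : ∃ j ∈ J, j ≠ X.cmp hm (algebraMap k L a) := by
    by_contra hcon
    push Not at hcon
    exact hne (Finset.eq_singleton_iff_unique_mem.2 ⟨hJ, hcon⟩)
  obtain ⟨θ, hθ, rfl⟩ := X.cmp_surj22 hm j
  by_cases h2 : 2 ≤ (minpoly k θ).natDegree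
  · left
    have h1 := X.class_card22 hm hθ
    have h3 : algebraMap k L a ∉ X.ΩJ5 hm {X.cmp hm θ} := by
      rw [Ctx.mem_ΩJ5, Finset.mem_singleton]
      rintro ⟨-, h⟩
      exact hj0 h.symm
    have h4 : insert (algebraMap k L a) (X.ΩJ5 hm {X.cmp hm θ}) ⊆ X.ΩJ5 hm J := by
      intro ρ hρ
      rw [Ctx.mem_ΩJ5]
      rcases Finset.mem_insert.1 hρ with rfl | hρ
      · exact ⟨X.rat_mem22 ha, hJ⟩
      · rw [Ctx.mem_ΩJ5, Finset.mem_singleton] at hρ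
        exact ⟨hρ.1, hρ.2 ▸ hj⟩
    have h5 := Finset.card_le_card h4
    rw [Finset.card_insert_of_notMem h3] at h5
    omega
  · rw [minpoly.two_le_natDegree_iff (Algebra.IsIntegral.isIntegral θ), not_not] at h2
    obtain ⟨b, rfl⟩ := h2
    have hbr : eval b f = 0 := by
      have h3 := hθ
      rw [Ctx.mem_Ω, mem_rootSet] at h3
      have h4 := h3.2
      rw [aeval_algebraMap_apply, map_eq_zero] at h4
      rw [← h4]
      rfl
    by_cases hJ2 : J = {X.cmp hm (algebraMap k L a), X.cmp hm (algebraMap k L b)}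
    · right
      refine ⟨b, hbr, ?_, hJ2⟩
      rintro rfl
      exact hj0 rfl
    · left
      obtain ⟨j', hj', hj1, hj2⟩ : ∃ j ∈ J, j ≠ X.cmp hm (algebraMap k L a) ∧
          j ≠ X.cmp hm (algebraMap k L b) := by
        by_contra hcon
        push Not at hcon
        refine hJ2 (Finset.ext fun i => ?_)
        rw [Finset.mem_insert, Finset.mem_singleton]
        constructor
        · intro hi
          by_cases h : i = X.cmp hm (algebraMap k L a)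
          · exact Or.inl h
          · exact Or.inr (hcon i hi h)
        · rintro (rfl | rfl)
          · exact hJ
          · exact hj
      obtain ⟨θ', hθ', rfl⟩ := X.cmp_surj22 hm j'
      have h4 : ({algebraMap k L a, algebraMap k L b, θ'} : Finset L) ⊆ X.ΩJ5 hm J := by
        intro ρ hρ
        rw [Finset.mem_insert, Finset.mem_insert, Finset.mem_singleton] at hρ
        rw [Ctx.mem_ΩJ5]
        rcases hρ with rfl | rfl | rfl
        · exact ⟨X.rat_mem22 ha, hJ⟩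
        · exact ⟨hθ, hj⟩
        · exact ⟨hθ', hj'⟩
      have h5 := Finset.card_le_card h4
      rw [Finset.card_eq_three.2 ⟨algebraMap k L a, algebraMap k L b, θ', ?_, ?_, ?_, rfl⟩] at h5
      · exact h5
      · intro h
        exact hj0 (by rw [h])
      · rintro rfl
        exact hj1 rfl
      · rintro rfl
        exact hj2 rfl

end

/-- a common lower bound of finitely many positive numbers -/
theorem exists_min5 {α : Type} (s : Finset α) (d : α → ℝ) (hd : ∀ a ∈ s, 0 < d a) :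
    ∃ ε : ℝ, 0 < ε ∧ ∀ a ∈ s, ε ≤ d a := by
  rcases s.eq_empty_or_nonempty with rfl | hs
  · exact ⟨1, one_pos, fun a ha => absurd ha (Finset.notMem_empty a)⟩
  · obtain ⟨a, ha, h⟩ := s.exists_min_image d hs
    exact ⟨d a, hd a ha, h⟩

/-- **BLOCK W3**: the weights, with any number of rational roots -/
theorem g3w : StmtG3w := by
  intro hMe hSp k L _ _ _ _ _ _ f hev h6 hodd B hB Q₁ hQ₁ K
  classical
  have hf : f ≠ 0 := by
    rintro rfl
    rw [natDegree_zero] at h6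
    omega
  have hmem : ∀ a : k, a ∈ f.roots.toFinset ↔ eval a f = 0 := fun a => by
    rw [Multiset.mem_toFinset, mem_roots hf]
    rfl
  obtain ⟨B₀, hB₀⟩ := exists_B5 k
  obtain ⟨δs, Cs, Qs, hδs, hQs, hCs⟩ := hSp k L B₀ hB₀
  have hKpos : (0 : ℝ) < K + 1 / 4 := by positivity
  -- the densities of the pairs
  have hd : ∀ z : k × k, ∃ δ₁ C₁ : ℝ, 0 < δ₁ ∧ (eval z.1 f = 0 → eval z.2 f = 0 → z.1 ≠ z.2 →
      ∀ x : ℕ, 2 ≤ x → |∑ v ∈ (B x).filter (· ∈ Q₁ z.1 z.2), (1 : ℝ) / nm v -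
        δ₁ * Real.log (Real.log x)| ≤ C₁) := by
    intro z
    by_cases h : eval z.1 f = 0 ∧ eval z.2 f = 0 ∧ z.1 ≠ z.2
    · obtain ⟨δ₁, C₁, h1, h2⟩ := hQ₁ z.1 z.2 h.1 h.2.1 h.2.2
      exact ⟨δ₁, C₁, h1, fun _ _ _ => h2⟩
    · exact ⟨1, 0, one_pos, fun h1 h2 h3 => absurd ⟨h1, h2, h3⟩ h⟩
  choose dd Cd hd0 hdC using hd
  obtain ⟨ε₁, hε₁, hε₁'⟩ := exists_min5 (f.roots.toFinset ×ˢ f.roots.toFinset)
    (fun z => 1 / 8 * dd z / (K + 1 / 4)) fun z _ => by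
      have := hd0 z
      positivity
  refine ⟨min (1 / 8 * δs / (K + 1 / 4)) ε₁, lt_min (by positivity) hε₁,
    fun X hm hfin ι Vι SG hh hK Q hQ δ C hδ hC hQ₁s => ?_⟩
  rw [cdW_eq5]
  have hsub := VW_sub5 X hm hfin ι Vι SG hh
  have hbig : ∀ J : Finset (Fin X.m), 3 ≤ (X.ΩJ5 hm J).card →
      TBt (resV (X.cdM hm hfin ι Vι (ggM X hm SG hh)) (VW5 X ι Vι SG hh)) J := by
    intro J hJ
    refine tbt_mono5 (X.cdM hm hfin ι Vι (ggM X hm SG hh)) (VW5 X ι Vι SG hh) hsub ?_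
    refine Pool.Agent.TW.tbt5 X (Cs := Cs) (C := C) hMe K hδs hQs hB₀ ?_ h6 hev hm hfin ι Vι SG
      hh hK Q hQ hB (hδ.trans (min_le_left _ _)) ?_ J hJ
    · intro x hx
      convert hCs x hx
    · intro x hx
      convert hC x hx
  have hpair : ∀ a b : k, eval a f = 0 → eval b f = 0 → a ≠ b →
      TBt (resV (X.cdM hm hfin ι Vι (ggM X hm SG hh)) (VW5 X ι Vι SG hh))
        {X.cmp hm (algebraMap k L a), X.cmp hm (algebraMap k L b)} := by
    intro a b ha hb hab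
    refine tbt_gen5 X hMe K (δs := dd (a, b)) (Cs := Cd (a, b)) (Qs := Q₁ a b) hB (hd0 (a, b)) ?_
      hm hfin ι Vι _ _ Q hB (δ := δ) (C := C) ?_ ?_ _ (Finset.insert_nonempty _ _) ?_
    · intro x hx
      convert hdC (a, b) ha hb hab x hx
    · exact hδ.trans ((min_le_right _ _).trans (hε₁' (a, b)
        (Finset.mem_product.2 ⟨(hmem a).2 ha, (hmem b).2 hb⟩)))
    · intro x hx
      convert hC x hx
    · intro v hv t
      have ho : ∃ θ ∈ X.Ω, θ ≠ algebraMap k L a ∧ θ ≠ algebraMap k L b ∧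
          ∃ n : ℕ, Odd n ∧ (X.F v ^ n) θ = θ := by
        obtain ⟨θ, h1, h2⟩ := hodd a b ha hb hab (X.F v)
        exact ⟨θ, (X.mem_Ω θ).2 h1, h2⟩
      refine ⟨(wjt_pair5 X (by omega) hm hfin ι Vι SG hh ha hb hab v ho t K (hK v)).1, ?_, ?_⟩
      · intro hvQ
        have h1 := (wjt_pair5 X (by omega) hm hfin ι Vι SG hh ha hb hab v ho t 1 (hQ v hvQ hv)).1
        rwa [Nat.cast_one] at h1
      · intro hvQ hvQ1
        have h1 := (wjt_pair5 X (by omega) hm hfin ι Vι SG hh ha hb hab v ho t 1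
          (hQ v hvQ hv)).2 (hQ₁s a b ha hb hab v hvQ1 hv)
        rw [Nat.cast_one] at h1
        linarith
  have hrat : ∀ a : k, eval a f = 0 → ∀ J : Finset (Fin X.m),
      X.cmp hm (algebraMap k L a) ∈ J → J ≠ {X.cmp hm (algebraMap k L a)} →
      TBt (resV (X.cdM hm hfin ι Vι (ggM X hm SG hh)) (VW5 X ι Vι SG hh)) J := by
    intro a ha J hJ hne
    rcases three_or5 X hm ha J hJ hne with h | ⟨b, hb, hab, rfl⟩
    · exact hbig J h
    · exact hpair a b ha hb hab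
  refine ⟨sys5 hMe k, ⟨X.Ω.card * 2 * K, fun p => ?_⟩, fun a ha => ?_, fun J => ?_, hrat⟩
  · change (VW5 X ι Vι SG hh p).card ≤ _
    refine (Finset.card_le_card (hsub p)).trans ?_
    change ((X.Fx p ×ˢ (Finset.univ : Finset ℤˣ)).sigma fun o => Vι p o.1).card ≤ _
    have hu : (Finset.univ : Finset ℤˣ).card = 2 := rfl
    rw [Finset.card_sigma]
    refine (Finset.sum_le_card_nsmul _ _ K fun o _ => hK p o.1).trans ?_
    rw [smul_eq_mul, Finset.card_product, hu]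
    refine Nat.mul_le_mul_right K (Nat.mul_le_mul_right 2 ?_)
    unfold Ctx.Fx
    exact Finset.card_filter_le _ _
  · refine special_mono5 (X.cdM hm hfin ι Vι (ggM X hm SG hh)) (VW5 X ι Vι SG hh) hsub ?_
    refine ⟨?_, ?_⟩
    · intro q (o : (Σ _ : L × ℤˣ, ι)) ho (o' : (Σ _ : L × ℤˣ, ι)) ho' h h' p (i : L)
      have e1 : o.1.1 = algebraMap k L a := X.eq_rat_of_cmp22 hm ha (mem_V5 X ho).1 h
      have e2 : o'.1.1 = algebraMap k L a := X.eq_rat_of_cmp22 hm ha (mem_V5 X ho').1 h'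
      change X.ch p (X.len p i) (aeval i (X.B q o.1.1)) =
        X.ch p (X.len p i) (aeval i (X.B q o'.1.1))
      rw [e1, e2]
    · intro q (o : (Σ _ : L × ℤˣ, ι)) ho h
      have e1 : o.1.1 = algebraMap k L a := X.eq_rat_of_cmp22 hm ha (mem_V5 X ho).1 h
      change ((X.R q).filter fun ρ => X.cmp hm ρ = X.cmp hm (algebraMap k L a)).erase o.1.1 = ∅
      rw [Finset.eq_empty_iff_forall_notMem]
      intro ρ hρ
      rw [Finset.mem_erase, Finset.mem_filter] at hρ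
      refine hρ.1 ?_
      rw [e1]
      exact X.eq_rat_of_cmp22 hm ha (X.R_sub22 hρ.2.1) hρ.2.2
  · by_cases hJ : ∃ a : k, eval a f = 0 ∧ X.cmp hm (algebraMap k L a) ∈ J
    · obtain ⟨a, ha, haJ⟩ := hJ
      by_cases hne : J = {X.cmp hm (algebraMap k L a)}
      · exact Or.inl ⟨a, ha, hne⟩
      · exact Or.inr (Or.inr (hrat a ha J haJ hne))
    · right
      rcases Nat.lt_or_ge (X.ΩJ5 hm J).card 5 with h | h
      · left
        refine ta_mono5 (X.cdM hm hfin ι Vι (ggM X hm SG hh)) (VW5 X ι Vι SG hh) hsub ?_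
        refine X.taM5 Pool.Agent.Helper22.HG.der hm hfin ι Vι (ggM X hm SG hh) J (by omega) ?_
        rintro θ hθ b rfl
        rw [Ctx.mem_ΩJ5] at hθ
        have h3 := hθ.1
        rw [Ctx.mem_Ω, mem_rootSet] at h3
        have h4 := h3.2
        rw [aeval_algebraMap_apply, map_eq_zero] at h4
        exact hJ ⟨b, by rw [← h4]; rfl, hθ.2⟩
      · exact Or.inr (hbig J (by omega))

end Pool.Agent.TW3
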